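import Pool.Agent.L0h38.MON.Stm
import Pool.Agent.R673.MG.Types

/-!
# Project MON: NAB, monsters of type (3) are not commutative
-/

set_option autoImplicit false

namespace Pool.Agent.L0h90.MON

open Pool.Agent.L0h38.MON

theorem exists_fi (G : Type) [CommGroup G] [Group.FG G] [Infinite G] :
    ∃ H : Subgroup G, H.FiniteIndex ∧ H ≠ ⊤ := by
  obtain ⟨ι, j, _, _, p, hp, e, ⟨f⟩⟩ := CommGroup.equiv_free_prod_prod_multiplicative_zmod G
  rcases isEmpty_or_nonempty j with hj | ⟨⟨j₀⟩⟩
  · exfalso
    haveI : ∀ i, NeZero (p i ^ e i) := fun i => ⟨pow_ne_zero _ (hp i).ne_zero⟩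
    haveI : ∀ i, Finite (Multiplicative (ZMod (p i ^ e i))) := fun i => inferInstance
    haveI : Finite G := Finite.of_equiv _ f.toEquiv.symm
    exact not_finite G
  · let q : Multiplicative ℤ →* Multiplicative (ZMod 2) :=
      AddMonoidHom.toMultiplicative (Int.castAddHom (ZMod 2))
    let g : G →* Multiplicative (ZMod 2) :=
      q.comp ((Pi.evalMonoidHom (fun _ : j => Multiplicative ℤ) j₀).comp
        ((MonoidHom.fst _ _).comp f.toMonoidHom))
    refine ⟨g.ker, Subgroup.finiteIndex_ker g, ?_⟩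
    intro h
    have h1 : g (f.symm (fun _ => Multiplicative.ofAdd 1, 1)) = 1 := by
      have : f.symm (fun _ => Multiplicative.ofAdd 1, 1) ∈ g.ker := by
        rw [h]; exact Subgroup.mem_top _
      exact this
    have h2 : g (f.symm (fun _ => Multiplicative.ofAdd 1, 1)) = Multiplicative.ofAdd (1 : ZMod 2) := by
      show q ((f (f.symm (fun _ => Multiplicative.ofAdd 1, 1))).1 j₀) = _
      rw [MulEquiv.apply_symm_apply]
      show Multiplicative.ofAdd ((1 : ℤ) : ZMod 2) = _
      rw [Int.cast_one]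
    rw [h2] at h1
    exact one_ne_zero (α := ZMod 2) (Multiplicative.ofAdd.injective h1)

theorem NAB : S_NAB := by
  intro G _ _ hinf hT hc
  letI : CommGroup G := Group.commGroupOfCenterEqTop hc
  obtain ⟨H, h1, h2⟩ := exists_fi G
  exact h2 (Pool.Agent.R673.MG.cyclic_no_fi hT.1 hT.2 H h1)

end Pool.Agent.L0h90.MON
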